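import Pool.Agent.Helper35.MS.StGB
import Pool.Agent.Helper93.MCF.Geo

/-! # Project MS, module GRA: the area of the unit sphere -/

set_option autoImplicit false

namespace Helper28.MS

open Helper35.MS Helper35.PI Helper35.PI2 Helper32.CL
open Pool.Agent.Helper93.MCF (sD hasFDerivAt_ster io inner_io inner_io_p)
open scoped ContDiff Manifold Topology ENNReal BigOperators RealInnerProductSpace
open MeasureTheory Set Filter

private theorem csy (p : S2) (x : EE 2) :
    (((chartAt (EE 2) p).symm x : S2) : EE 3) =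
      stereoInvFunAux (((-p : S2) : EE 3)) (io p x) := by
  have h := Pool.Agent.Helper93.MCF.chart_symm p x
  rw [← h]
  simp [extChartAt]

private theorem loc_eq (p : S2) (t : ℝ) :
    loc (n := 2) inS p t = fun x => stereoInvFunAux (((-p : S2) : EE 3)) (io p x) := by
  funext x
  exact csy p x

private theorem dv_eq (p : S2) (t : ℝ) (y : EE 2) (i : Fin 2) :
    dv1 (loc (n := 2) inS p t) y i = sD (((-p : S2) : EE 3)) (io p y) (io p (ee i)) := by
  unfold dv1
  rw [loc_eq]
  have h := (hasFDerivAt_ster (((-p : S2) : EE 3)) (io p y)).comp y (io p).hasFDerivAt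
  have h2 : fderiv ℝ (fun x => stereoInvFunAux (((-p : S2) : EE 3)) (io p x)) y =
      (sD (((-p : S2) : EE 3)) (io p y)).comp (io p) := h.fderiv
  rw [h2]
  rfl

private theorem sD_inner (v w b b' : EE 3) (hv : ‖v‖ = 1) (hw : ⟪w, v⟫ = 0) (hb : ⟪b, v⟫ = 0)
    (hb' : ⟪b', v⟫ = 0) :
    ⟪sD v w b, sD v w b'⟫ = 16 / (‖w‖ ^ 2 + 4) ^ 2 * ⟪b, b'⟫ := by
  have hq : ‖w‖ ^ 2 + 4 ≠ 0 := by positivity
  have e : ∀ c : EE 3, sD v w c = (‖w‖ ^ 2 + 4)⁻¹ • ((4 : ℝ) • c + (2 * ⟪w, c⟫) • v) +
      (-((‖w‖ ^ 2 + 4) ^ 2)⁻¹ * (2 * ⟪w, c⟫)) • ((4 : ℝ) • w + (‖w‖ ^ 2 - 4) • v) := by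
    intro c
    simp [sD]
  have hvv : ⟪v, v⟫ = 1 := by rw [real_inner_self_eq_norm_sq, hv]; norm_num
  have hww : ⟪w, w⟫ = ‖w‖ ^ 2 := real_inner_self_eq_norm_sq w
  have hw' : ⟪v, w⟫ = 0 := by rw [real_inner_comm]; exact hw
  have hb2 : ⟪v, b'⟫ = 0 := by rw [real_inner_comm]; exact hb'
  have hbw : ⟪b, w⟫ = ⟪w, b⟫ := real_inner_comm _ _
  rw [e b, e b']
  simp only [inner_add_left, inner_add_right, real_inner_smul_left, real_inner_smul_right, hvv,
    hww, hw, hw', hb, hb2, hbw]
  field_simp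
  ring

private theorem io_norm (p : S2) (y : EE 2) : ‖io p y‖ = ‖y‖ := by
  have h := inner_io p y y
  rw [real_inner_self_eq_norm_sq, real_inner_self_eq_norm_sq] at h
  exact (sq_eq_sq₀ (norm_nonneg _) (norm_nonneg _)).1 h

private theorem sgm_eq (p : S2) (t : ℝ) (y : EE 2) :
    sgm (loc (n := 2) inS p t) y = 16 / (‖y‖ ^ 2 + 4) ^ 2 := by
  have hv : ‖(((-p : S2) : EE 3))‖ = 1 := Pool.Agent.Helper93.MCF.norm_p (-p)
  have hio : ∀ x : EE 2, ⟪io p x, (((-p : S2) : EE 3))⟫ = 0 := by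
    intro x
    have h : (((-p : S2) : EE 3)) = -(p : EE 3) := rfl
    rw [h, inner_neg_right, inner_io_p, neg_zero]
  have hee : ∀ i j : Fin 2, ⟪(ee i : EE 2), ee j⟫ = if i = j then (1 : ℝ) else 0 := by
    intro i j
    unfold ee
    fin_cases i <;> fin_cases j <;> simp [EuclideanSpace.inner_single_left]
  have hg : ∀ i j : Fin 2, gram (loc (n := 2) inS p t) y i j =
      16 / (‖y‖ ^ 2 + 4) ^ 2 * (if i = j then (1 : ℝ) else 0) := by
    intro i j
    show ⟪dv1 (loc (n := 2) inS p t) y i, dv1 (loc (n := 2) inS p t) y j⟫ = _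
    rw [dv_eq, dv_eq, sD_inner _ _ _ _ hv (hio _) (hio _) (hio _), inner_io, hee, io_norm]
  unfold sgm
  rw [Matrix.det_fin_two, hg, hg, hg, hg]
  simp only [if_true, Fin.isValue, zero_ne_one, one_ne_zero, if_false, mul_one, mul_zero, sub_zero]
  exact Real.sqrt_mul_self (by positivity)

private theorem src (p : S2) : (chartAt (EE 2) p).source = {-p}ᶜ := by
  simp [chartAt, ChartedSpace.chartAt]

private theorem tgt (p : S2) : (chartAt (EE 2) p).target = univ := by
  simp [chartAt, ChartedSpace.chartAt]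

/-- restriction to the source of another chart does not change the integral -/
private theorem res (p v : S2) (φ : EE 2 → ℝ≥0∞) (g : S2 → ℝ≥0∞) (u : S2 → ℝ≥0∞)
    (hg : ∀ q, q ∈ (chartAt (EE 2) p).source → q ∈ (chartAt (EE 2) v).source → g q = u q) :
    ∫⁻ y in (chartAt (EE 2) p).target, g ((chartAt (EE 2) p).symm y) * φ y =
      ∫⁻ y in (chartAt (EE 2) p).target, u ((chartAt (EE 2) p).symm y) * φ y := by
  rw [tgt, Measure.restrict_univ]
  apply lintegral_congr_ae
  have h : ∀ᵐ y : EE 2, y ≠ chartAt (EE 2) p (-v) := by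
    rw [ae_iff]
    simp
  filter_upwards [h] with y hy
  have hyt : y ∈ (chartAt (EE 2) p).target := by rw [tgt]; trivial
  have h1 : (chartAt (EE 2) p).symm y ∈ (chartAt (EE 2) p).source :=
    (chartAt (EE 2) p).map_target hyt
  have h2 : (chartAt (EE 2) p).symm y ∈ (chartAt (EE 2) v).source := by
    rw [src]
    intro h3
    apply hy
    have h4 : (chartAt (EE 2) p).symm y = -v := h3
    rw [← h4]
    exact ((chartAt (EE 2) p).right_inv hyt).symm
  rw [hg _ h1 h2]

private theorem rint : ∫ r in Ioi (0 : ℝ), r * (16 / (r ^ 2 + 4) ^ 2) = 2 := by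
  have hd : ∀ r ∈ Ici (0 : ℝ), HasDerivAt (fun r : ℝ => -8 / (r ^ 2 + 4))
      (r * (16 / (r ^ 2 + 4) ^ 2)) r := by
    intro r _
    have h0 : r ^ 2 + 4 ≠ 0 := by positivity
    have h1 : HasDerivAt (fun r : ℝ => r ^ 2 + 4) (2 * r) r := by
      have := (hasDerivAt_pow 2 r).add_const (4 : ℝ)
      simpa using this
    have h2 := (hasDerivAt_const r (-8 : ℝ)).div h1 h0
    refine h2.congr_deriv ?_
    field_simp
    ring
  have ht : Tendsto (fun r : ℝ => -8 / (r ^ 2 + 4)) atTop (𝓝 0) := by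
    apply Tendsto.const_div_atTop
    exact tendsto_atTop_add_const_right _ _ (tendsto_pow_atTop two_ne_zero)
  have h := integral_Ioi_of_hasDerivAt_of_nonneg' hd (fun r hr => by
    have : (0 : ℝ) < r := hr
    positivity) ht
  rw [h]
  norm_num

private theorem plane : ∫ y : EE 2, 16 / (‖y‖ ^ 2 + 4) ^ 2 = 4 * Real.pi := by
  have h := MeasureTheory.integral_fun_norm_addHaar (volume : Measure (EE 2))
    (fun r : ℝ => 16 / (r ^ 2 + 4) ^ 2)
  rw [h]
  have hdim : Module.finrank ℝ (EE 2) = 2 := finrank_euclideanSpace_fin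
  rw [hdim]
  have hb : (volume : Measure (EE 2)).real (Metric.ball 0 1) = Real.pi := by
    rw [Measure.real, EuclideanSpace.volume_ball_fin_two]
    simp [Real.pi_nonneg]
  rw [hb]
  have e : ∫ y in Ioi (0 : ℝ), y ^ (2 - 1) • (16 / (y ^ 2 + 4) ^ 2 : ℝ) = 2 := by
    rw [← rint]
    apply integral_congr_ae
    filter_upwards with y
    simp
  rw [e]
  simp
  ring

private theorem lplane : ∫⁻ y : EE 2, ENNReal.ofReal (16 / (‖y‖ ^ 2 + 4) ^ 2) =
    ENNReal.ofReal (4 * Real.pi) := by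
  have hc : Continuous (fun y : EE 2 => (16 : ℝ) / (‖y‖ ^ 2 + 4) ^ 2) := by
    apply Continuous.div continuous_const (by fun_prop)
    intro y
    positivity
  have h0 : 0 ≤ᵐ[volume] fun y : EE 2 => (16 : ℝ) / (‖y‖ ^ 2 + 4) ^ 2 := by
    filter_upwards with y
    positivity
  have hint : Integrable (fun y : EE 2 => (16 : ℝ) / (‖y‖ ^ 2 + 4) ^ 2) := by
    by_contra hn
    have h := plane
    rw [integral_undef hn] at h
    have := Real.pi_pos
    linarith
  rw [← plane, ofReal_integral_eq_lintegral_ofReal hint h0]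

theorem hGRA (hGRS : StGRS) (hMUJ : StMUJ) (hV4J : StV4J) (_hSGJ : StSGJ) : StGRA := by
  intro c χ hpu t
  have himm : IsImmJ (n := 2) univ inS := hGRS.1
  have hset : SetupJ 2 univ inS c χ := ⟨himm, hpu⟩
  obtain ⟨s, -, H⟩ := hMUJ 2 3 S2 univ inS c χ hset
  obtain ⟨-, hL, -⟩ := H t (mem_univ t)
  have h1 : muM 2 inS c χ t univ = Lam (n := 2) inS c χ t (fun _ => 1) := by
    rw [← hL (fun _ => 1) measurable_const, lintegral_one]
  set v : S2 := c 0 with hv
  have h2 : ∀ i, ∫⁻ y in (chartAt (EE 2) (c i)).target,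
      ENNReal.ofReal (χ i ((chartAt (EE 2) (c i)).symm y)) * 1 *
        ENNReal.ofReal (sgm (loc (n := 2) inS (c i) t) y) =
      ∫⁻ y : EE 2, ENNReal.ofReal (χ i ((chartAt (EE 2) v).symm y)) *
        ENNReal.ofReal (16 / (‖y‖ ^ 2 + 4) ^ 2) := by
    intro i
    classical
    have h3 := (hV4J 2 3 S2 univ inS himm t (mem_univ t) (c i) v).1
      (fun q => if q ∈ (chartAt (EE 2) (c i)).source ∧ q ∈ (chartAt (EE 2) v).source then
        ENNReal.ofReal (χ i q) else 0) (by
        intro q hq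
        by_contra h
        exact hq (if_neg h))
    have h4 := res (c i) v (fun y => ENNReal.ofReal (sgm (loc (n := 2) inS (c i) t) y))
      (fun q => if q ∈ (chartAt (EE 2) (c i)).source ∧ q ∈ (chartAt (EE 2) v).source then
        ENNReal.ofReal (χ i q) else 0) (fun q => ENNReal.ofReal (χ i q))
      (fun q hq hq' => if_pos ⟨hq, hq'⟩)
    have h5 := res v (c i) (fun y => ENNReal.ofReal (sgm (loc (n := 2) inS v t) y))
      (fun q => if q ∈ (chartAt (EE 2) (c i)).source ∧ q ∈ (chartAt (EE 2) v).source then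
        ENNReal.ofReal (χ i q) else 0) (fun q => ENNReal.ofReal (χ i q))
      (fun q hq hq' => if_pos ⟨hq', hq⟩)
    simp only [mul_one]
    refine h4.symm.trans (h3.trans (h5.trans ?_))
    rw [tgt, Measure.restrict_univ]
    simp only [sgm_eq]
  have hsy : Continuous ((chartAt (EE 2) v).symm : EE 2 → S2) := by
    have h := (chartAt (EE 2) v).continuousOn_symm
    rw [tgt] at h
    exact continuousOn_univ.1 h
  have hcw : Continuous (fun y : EE 2 => (16 : ℝ) / (‖y‖ ^ 2 + 4) ^ 2) := by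
    apply Continuous.div continuous_const (by fun_prop)
    intro y
    positivity
  have h6 : muM 2 inS c χ t univ = ENNReal.ofReal (4 * Real.pi) := by
    rw [h1]
    unfold Lam
    simp only [h2]
    rw [← lintegral_tsum]
    · rw [← lplane]
      apply lintegral_congr
      intro y
      rw [ENNReal.tsum_mul_right]
      have h7 := hpu.sum ((chartAt (EE 2) v).symm y)
      have h8 : ∑' i, ENNReal.ofReal (χ i ((chartAt (EE 2) v).symm y)) = 1 := by
        rw [← ENNReal.ofReal_tsum_of_nonneg (fun i => hpu.nonneg i _) h7.summable, h7.tsum_eq,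
          ENNReal.ofReal_one]
      rw [h8, one_mul]
    · intro i
      apply Measurable.aemeasurable
      have m1 : Measurable (fun y : EE 2 => ENNReal.ofReal (χ i ((chartAt (EE 2) v).symm y))) :=
        (((hpu.smooth i).continuous.comp hsy).measurable).ennreal_ofReal
      have m2 : Measurable (fun y : EE 2 => ENNReal.ofReal (16 / (‖y‖ ^ 2 + 4) ^ 2)) :=
        hcw.measurable.ennreal_ofReal
      exact m1.mul m2
  rw [Measure.real, h6, ENNReal.toReal_ofReal (by positivity)]

end Helper28.MS
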