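import Pool.Agent.Helper35.MS.StF

/-! # Project MS, module LIN: linear combinations of testable functions -/

set_option autoImplicit false

namespace Helper28.MS

open Helper35.MS Helper35.PI Helper35.PI2 Helper32.CL
open scoped ContDiff Manifold Topology ENNReal BigOperators
open MeasureTheory Set Filter

private theorem da {M : Type} [TopologicalSpace M] [ChartedSpace (EE 2) M]
    [IsManifold (𝓡 2) ∞ M] {E : Type} [NormedAddCommGroup E] [NormedSpace ℝ E]
    {f : M → E} (hf : ContMDiff (𝓡 2) 𝓘(ℝ, E) 1 f) (q : M) :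
    DifferentiableAt ℝ (fun y => f ((chartAt (EE 2) q).symm y)) (chartAt (EE 2) q q) := by
  have h1 : ContMDiffOn (𝓡 2) (𝓡 2) ∞ (chartAt (EE 2) q).symm (chartAt (EE 2) q).target :=
    contMDiffOn_chart_symm
  have h2 : ContMDiffAt (𝓡 2) (𝓡 2) ∞ (chartAt (EE 2) q).symm (chartAt (EE 2) q q) :=
    h1.contMDiffAt ((chartAt (EE 2) q).open_target.mem_nhds
      ((chartAt (EE 2) q).map_source (mem_chart_source (EE 2) q)))
  have h3 : ContMDiffAt (𝓡 2) 𝓘(ℝ, E) 1 (f ∘ (chartAt (EE 2) q).symm) (chartAt (EE 2) q q) :=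
    hf.contMDiffAt.comp _ (h2.of_le (by exact_mod_cast le_top))
  exact (contMDiffAt_iff_contDiffAt.1 h3).differentiableAt one_ne_zero

private theorem cm_lin {M : Type} [TopologicalSpace M] [ChartedSpace (EE 2) M]
    {E : Type} [NormedAddCommGroup E] [NormedSpace ℝ E] (a b : ℝ)
    {f g : M → E} (hf : ContMDiff (𝓡 2) 𝓘(ℝ, E) 1 f) (hg : ContMDiff (𝓡 2) 𝓘(ℝ, E) 1 g) :
    ContMDiff (𝓡 2) 𝓘(ℝ, E) 1 (fun q => a • f q + b • g q) := by
  have hL : ContDiff ℝ 1 (fun p : E × E => a • p.1 + b • p.2) :=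
    (contDiff_fst.const_smul a).add (contDiff_snd.const_smul b)
  exact hL.contMDiff.comp (hf.prodMk_space hg)

private theorem gd_lin {N : ℕ} {M : Type} [TopologicalSpace M] [ChartedSpace (EE 2) M]
    [IsManifold (𝓡 2) ∞ M] (F : M → ℝ → EE N) (t : ℝ) (u v : M → ℝ) (a b : ℝ)
    (hu : ContMDiff (𝓡 2) 𝓘(ℝ, ℝ) 1 u) (hv : ContMDiff (𝓡 2) 𝓘(ℝ, ℝ) 1 v) (q : M) :
    gdM 2 F t (fun q => a * u q + b * v q) q = a • gdM 2 F t u q + b • gdM 2 F t v q := by
  have hd : fderiv ℝ (fun y => a * u ((chartAt (EE 2) q).symm y) +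
      b * v ((chartAt (EE 2) q).symm y)) (chartAt (EE 2) q q) =
      a • fderiv ℝ (fun y => u ((chartAt (EE 2) q).symm y)) (chartAt (EE 2) q q) +
      b • fderiv ℝ (fun y => v ((chartAt (EE 2) q).symm y)) (chartAt (EE 2) q q) := by
    have e1 := ((da hu q).hasFDerivAt.const_mul a).add ((da hv q).hasFDerivAt.const_mul b)
    exact e1.fderiv
  unfold gdM
  simp only [hd]
  simp only [Finset.smul_sum, ← Finset.sum_add_distrib]
  refine Finset.sum_congr rfl fun k _ => Finset.sum_congr rfl fun m _ => ?_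
  simp only [_root_.add_apply, _root_.smul_apply, smul_eq_mul]
  rw [smul_smul, smul_smul, ← add_smul]
  congr 1
  ring

private theorem dv_lin {N : ℕ} {M : Type} [TopologicalSpace M] [ChartedSpace (EE 2) M]
    [IsManifold (𝓡 2) ∞ M] (F : M → ℝ → EE N) (t : ℝ) (X Y : M → EE N) (a b : ℝ)
    (hX : ContMDiff (𝓡 2) 𝓘(ℝ, EE N) 1 X) (hY : ContMDiff (𝓡 2) 𝓘(ℝ, EE N) 1 Y) (q : M) :
    dvg (n := 2) F (fun q => a • X q + b • Y q) q t = a * dvg (n := 2) F X q t +
      b * dvg (n := 2) F Y q t := by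
  have hd : fderiv ℝ (fun y => a • X ((chartAt (EE 2) q).symm y) +
      b • Y ((chartAt (EE 2) q).symm y)) (chartAt (EE 2) q q) =
      a • fderiv ℝ (fun y => X ((chartAt (EE 2) q).symm y)) (chartAt (EE 2) q q) +
      b • fderiv ℝ (fun y => Y ((chartAt (EE 2) q).symm y)) (chartAt (EE 2) q q) := by
    have e1 := ((da hX q).hasFDerivAt.const_smul a).add ((da hY q).hasFDerivAt.const_smul b)
    exact e1.fderiv
  unfold dvg
  simp only [hd]
  simp only [Finset.mul_sum, ← Finset.sum_add_distrib]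
  refine Finset.sum_congr rfl fun k _ => Finset.sum_congr rfl fun m _ => ?_
  simp only [_root_.add_apply, _root_.smul_apply]
  rw [inner_add_left, real_inner_smul_left, real_inner_smul_left]
  ring

theorem hLIN : StLIN := by
  intro N M _ _ _ J F hF u v a b hu hv
  have hg : ∀ t ∈ J, ∀ q, gdM 2 F t (fun q => a * u q t + b * v q t) q
      = a • gdM 2 F t (fun q => u q t) q + b • gdM 2 F t (fun q => v q t) q := by
    intro t ht q
    exact gd_lin F t (fun q => u q t) (fun q => v q t) a b (hu.sm t ht) (hv.sm t ht) q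
  have hd : ∀ q, ∀ t ∈ J, HasDerivAt (fun s => a * u q s + b * v q s)
      (a * deriv (fun s => u q s) t + b * deriv (fun s => v q s) t) t := by
    intro q t ht
    exact ((hu.hd q t ht).const_mul a).add ((hv.hd q t ht).const_mul b)
  refine ⟨?_, ?_⟩
  · refine ⟨?_, ?_, ?_, ?_, ?_, ?_⟩
    · exact (continuousOn_const.mul hu.c0).add (continuousOn_const.mul hv.c0)
    · have h : ContinuousOn (fun z : M × ℝ => a * deriv (fun s => u z.1 s) z.2 +
          b * deriv (fun s => v z.1 s) z.2) (univ ×ˢ J) :=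
        (continuousOn_const.mul hu.c1).add (continuousOn_const.mul hv.c1)
      refine h.congr ?_
      intro z hz
      exact (hd z.1 z.2 hz.2).deriv
    · intro q t ht
      have h := hd q t ht
      rw [h.deriv]
      exact h
    · intro t ht
      exact cm_lin a b (hu.sm t ht) (hv.sm t ht)
    · intro t ht
      have e : gdM 2 F t (fun q => a * u q t + b * v q t) =
          fun q => a • gdM 2 F t (fun q => u q t) q + b • gdM 2 F t (fun q => v q t) q :=
        funext (hg t ht)
      rw [e]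
      exact cm_lin a b (hu.gr t ht) (hv.gr t ht)
    · intro t ht q
      rw [hg t ht q, inner_add_right, real_inner_smul_right, real_inner_smul_right,
        hu.og t ht q, hv.og t ht q]
      ring
  · intro q t ht
    refine ⟨hg t ht q, ?_⟩
    unfold htF lapF
    rw [(hd q t ht).deriv]
    have e : gdM 2 F t (fun q => a * u q t + b * v q t) =
        fun q => a • gdM 2 F t (fun q => u q t) q + b • gdM 2 F t (fun q => v q t) q :=
      funext (hg t ht)
    rw [e, dv_lin F t _ _ a b (hu.gr t ht) (hv.gr t ht) q]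
    ring

end Helper28.MS
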